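import Pool.Agent.Y903.LT34.Ker

/-!
# `GG / Z(GG) = PSL(3, F4)`, `GG` is perfect of order `40320`
-/

namespace Pool.Agent.Y903.LT34

open Pool.Agent.Y60 Matrix
open scoped MatrixGroups commutatorElement

/-- a partner -/
noncomputable def sf (g : GG) : SL(3, F4) := (exists_s g).choose

lemma sf_spec (g : GG) : Cr (sf g).1 g.1 := (exists_s g).choose_spec

lemma center_of_one {s : SL(3, F4)} (h : Cr s.1 1) : s ∈ Subgroup.center SL(3, F4) := by
  obtain ⟨r, _, e⟩ := scalar_of_one h
  refine Matrix.SpecialLinearGroup.mem_center_iff.2 ⟨r, ?_, e.symm⟩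
  have hd : s.1.det = 1 := s.2
  rw [e] at hd
  simpa using hd

lemma mk_eq {s t : SL(3, F4)} {g : GG} (hs : Cr s.1 g.1) (ht : Cr t.1 g.1) :
    (QuotientGroup.mk s : PSL(3, F4)) = QuotientGroup.mk t := by
  rw [QuotientGroup.eq]
  apply center_of_one
  have h := Cr_mul g.2 (Cr_inv g.2 hs) ht
  rw [inv_mul_cancel] at h
  exact h

/-- the homomorphism -/
noncomputable def phi : GG →* PSL(3, F4) :=
  MonoidHom.mk' (fun g => QuotientGroup.mk (sf g)) (by
    intro g h
    rw [← QuotientGroup.mk_mul]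
    refine mk_eq (g := g * h) (sf_spec (g * h)) ?_
    exact Cr_mul h.2 (sf_spec g) (sf_spec h))

lemma phi_of {s : SL(3, F4)} {g : GG} (hs : Cr s.1 g.1) : phi g = QuotientGroup.mk s :=
  mk_eq (sf_spec g) hs

lemma phi_surj : Function.Surjective phi := by
  intro y
  obtain ⟨s, rfl⟩ := QuotientGroup.mk_surjective y
  obtain ⟨g, hg⟩ := Q_SL s
  exact ⟨g, phi_of hg⟩

lemma mem_ker (g : GG) : g ∈ phi.ker ↔ g = 1 ∨ g = ge 4 := by
  constructor
  · intro h
    have h1 : (QuotientGroup.mk (sf g) : PSL(3, F4)) = 1 := h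
    rw [QuotientGroup.eq_one_iff] at h1
    obtain ⟨r, hr, e⟩ := Matrix.SpecialLinearGroup.mem_center_iff.1 h1
    have hr0 : r ≠ 0 := by
      rintro rfl
      simp at hr
    refine ker_eq hr0 g ?_
    rw [e]
    exact sf_spec g
  · rintro (rfl | rfl)
    · exact one_mem _
    · change phi (ge 4) = 1
      have h : Cr (1 : SL(3, F4)).1 (ge 4).1 := by
        have h4 := Cr_gen 4
        have e : smat 4 = 1 := by decide +kernel
        rw [e] at h4
        exact h4
      rw [phi_of h]
      rfl

lemma perfect_PSL : commutator PSL(3, F4) = ⊤ :=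
  Pool.Agent.H463R3.PSLn.PSL_commutator_eq_top (by decide)

lemma center_PSL : Subgroup.center PSL(3, F4) = ⊥ := by
  have hs : IsSimpleGroup PSL(3, F4) := Pool.Agent.H463R3.PSLn.isSimpleGroup_PSL (by decide)
  rcases hs.eq_bot_or_eq_top_of_normal (Subgroup.center PSL(3, F4)) inferInstance with h | h
  · exact h
  · exfalso
    have h1 : commutator PSL(3, F4) = ⊥ := by
      rw [commutator_def, Subgroup.commutator_eq_bot_iff_le_centralizer]
      intro x _
      rw [Subgroup.mem_centralizer_iff]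
      intro y _
      have hx : x ∈ Subgroup.center PSL(3, F4) := by rw [h]; trivial
      exact (Subgroup.mem_center_iff.1 hx y)
    rw [perfect_PSL] at h1
    have : Nontrivial PSL(3, F4) := hs.toNontrivial
    exact top_ne_bot h1

lemma ge4_comm (g : GG) : ge 4 * g = g * ge 4 := by
  apply Subtype.ext
  apply Equiv.ext
  intro x
  change (ge 4).1 (g.1 x) = g.1 ((ge 4).1 x)
  have key : ∀ x, (ge 4).1 x = - x := by
    intro x
    refine hom_ext' ⟨⟨(ge 4).1, GG_zero _⟩, GG_add _⟩ (-AddMonoidHom.id V6) ?_ x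
    have : ∀ i, (ge 4).1 (bas i) = - bas i := by decide +kernel
    intro i
    exact this i
  rw [key, key, GG_neg]

lemma ker_eq_center : phi.ker = Subgroup.center GG := by
  apply le_antisymm
  · intro g hg
    rw [mem_ker] at hg
    rw [Subgroup.mem_center_iff]
    intro h
    rcases hg with rfl | rfl
    · simp
    · exact (ge4_comm h).symm
  · intro g hg
    have h : phi g ∈ Subgroup.center PSL(3, F4) := by
      rw [Subgroup.mem_center_iff]
      intro y
      obtain ⟨h, rfl⟩ := phi_surj y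
      rw [← map_mul, ← map_mul, Subgroup.mem_center_iff.1 hg h]
    rw [center_PSL] at h
    exact h

/-- first part -/
theorem part1 : Nonempty ((GG ⧸ Subgroup.center GG) ≃* PSL(3, F4)) := by
  exact ⟨(QuotientGroup.quotientMulEquivOfEq ker_eq_center.symm).trans
    (QuotientGroup.quotientKerEquivOfSurjective phi phi_surj)⟩

set_option maxRecDepth 100000 in
lemma comm_bas : ∀ i, ((ge 0 * ge 3) * (ge 1 * ge 8 * ge 8)).1 (bas i) =
    ((ge 4) * ((ge 1 * ge 8 * ge 8) * (ge 0 * ge 3))).1 (bas i) := by decide +kernel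

lemma comm_eq : (ge 0 * ge 3) * (ge 1 * ge 8 * ge 8) =
    (ge 4) * ((ge 1 * ge 8 * ge 8) * (ge 0 * ge 3)) := by
  apply Subtype.ext
  apply Equiv.ext
  intro x
  exact hom_ext' ⟨⟨((ge 0 * ge 3) * (ge 1 * ge 8 * ge 8)).1, GG_zero _⟩, GG_add _⟩
    ⟨⟨((ge 4) * ((ge 1 * ge 8 * ge 8) * (ge 0 * ge 3))).1, GG_zero _⟩, GG_add _⟩ comm_bas x

lemma ge4_mem : ge 4 ∈ commutator GG := by
  have h : ge 4 = ⁅ge 0 * ge 3, ge 1 * ge 8 * ge 8⁆ := by
    rw [commutatorElement_def, comm_eq]
    group
  rw [h]
  exact Subgroup.commutator_mem_commutator (Subgroup.mem_top _) (Subgroup.mem_top _)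

/-- second part -/
theorem part2 : commutator GG = ⊤ := by
  rw [eq_top_iff]
  intro g _
  have h : phi g ∈ (commutator GG).map phi := by
    rw [commutator_def, Subgroup.map_commutator, ← MonoidHom.range_eq_map,
      MonoidHom.range_eq_top.2 phi_surj, ← commutator_def, perfect_PSL]
    trivial
  obtain ⟨n, hn, e⟩ := h
  have hk : n⁻¹ * g ∈ phi.ker := by
    rw [MonoidHom.mem_ker, map_mul, map_inv, e, inv_mul_cancel]
  have hm : n⁻¹ * g ∈ commutator GG := by
    rw [mem_ker] at hk
    rcases hk with hk | hk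
    · rw [hk]; exact one_mem _
    · rw [hk]; exact ge4_mem
  have := mul_mem hn hm
  rwa [mul_inv_cancel_left] at this

lemma card_ker : Nat.card phi.ker = 2 := by
  have hne : (1 : GG) ≠ ge 4 := by
    intro h
    have h1 : ((1 : GG).1 (bas 0)) = (ge 4).1 (bas 0) := by rw [← h]
    revert h1
    decide +kernel
  have e : (phi.ker : Set GG) = {1, ge 4} := by
    ext g
    exact mem_ker g
  have : Nat.card phi.ker = Set.ncard (phi.ker : Set GG) := rfl
  rw [this, e, Set.ncard_pair hne]

lemma card_units : Nat.card F4ˣ = 3 := by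
  rw [Nat.card_units, Nat.card_eq_fintype_card, F4.card]

lemma card_GL3 : Nat.card (GL (Fin 3) F4) = 181440 := by
  rw [Matrix.card_GL_field, F4.card, Fin.prod_univ_three]
  norm_num

lemma card_SL3 : Nat.card SL(3, F4) = 60480 := by
  have h1 := Subgroup.card_mul_index (GeneralLinearGroup.det : GL (Fin 3) F4 →* F4ˣ).ker
  rw [Subgroup.index_ker, MonoidHom.range_eq_top.2 GeneralLinearGroup.det_surjective,
    Subgroup.card_top, card_units, card_GL3] at h1
  have h2 : Nat.card (GeneralLinearGroup.det : GL (Fin 3) F4 →* F4ˣ).ker = Nat.card SL(3, F4) := by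
    refine Nat.card_congr (Equiv.symm (Equiv.ofBijective
      (fun s => ⟨Matrix.SpecialLinearGroup.toGL s, ?_⟩) ⟨?_, ?_⟩))
    · rw [MonoidHom.mem_ker]
      ext
      exact s.2
    · intro s t hst
      exact Matrix.SpecialLinearGroup.toGL_injective (Subtype.ext_iff.1 hst)
    · rintro ⟨g, hg⟩
      rw [MonoidHom.mem_ker] at hg
      refine ⟨⟨g.1, ?_⟩, ?_⟩
      · have := congrArg Units.val hg
        exact this
      · apply Subtype.ext
        apply Units.ext
        rfl
  omega

lemma card_center : Nat.card (Subgroup.center SL(3, F4)) = 3 := by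
  rw [Nat.card_congr (Matrix.SpecialLinearGroup.center_equiv_rootsOfUnity' (0 : Fin 3)).toEquiv]
  have h : rootsOfUnity (Fintype.card (Fin 3)) F4 = ⊤ := by
    rw [eq_top_iff]
    intro u _
    rw [mem_rootsOfUnity, Fintype.card_fin, ← card_units]
    exact pow_card_eq_one'
  rw [h, Subgroup.card_top, card_units]

/-- third part -/
theorem part3 : Nat.card GG = 40320 := by
  have h1 := Subgroup.card_mul_index phi.ker
  rw [Subgroup.index_ker, MonoidHom.range_eq_top.2 phi_surj, Subgroup.card_top, card_ker] at h1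
  have h2 := Subgroup.card_mul_index (Subgroup.center SL(3, F4))
  rw [card_center, card_SL3] at h2
  have h3 : (Subgroup.center SL(3, F4)).index = Nat.card PSL(3, F4) := rfl
  omega

/-- JOB B1 -/
theorem job : Pool.Agent.Y60.StB1 := ⟨part1, part2, part3⟩

end Pool.Agent.Y903.LT34
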