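import Pool.Agent.Y60.Stm

/-!
# Kernel checks for the group `GG`
-/

namespace Pool.Agent.Y903.LT34

open Pool.Agent.Y60

/-- check over `F3` -/
def allF (p : F3 → Bool) : Bool := p .z && (p .o && p .t)

lemma allF_spec {p : F3 → Bool} (h : allF p = true) (a : F3) : p a = true := by
  simp only [allF, Bool.and_eq_true] at h
  cases a
  · exact h.1
  · exact h.2.1
  · exact h.2.2

/-- check over `V6` -/
def allV (p : V6 → Bool) : Bool :=
  allF fun a => allF fun b => allF fun c => allF fun d => allF fun e => allF fun f =>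
    p (a, b, c, d, e, f)

lemma allV_spec {p : V6 → Bool} (h : allV p = true) (x : V6) : p x = true := by
  obtain ⟨a, b, c, d, e, f⟩ := x
  exact allF_spec (allF_spec (allF_spec (allF_spec (allF_spec (allF_spec h a) b) c) d) e) f

/-- equality test on `F3` -/
def eqF : F3 → F3 → Bool
  | .z, .z => true
  | .o, .o => true
  | .t, .t => true
  | _, _ => false

lemma eqF_iff (a b : F3) : eqF a b = true ↔ a = b := by cases a <;> cases b <;> simp [eqF]

/-- equality test on `V6` -/
def eqV (x y : V6) : Bool :=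
  eqF x.1 y.1 && (eqF x.2.1 y.2.1 && (eqF x.2.2.1 y.2.2.1 && (eqF x.2.2.2.1 y.2.2.2.1 &&
    (eqF x.2.2.2.2.1 y.2.2.2.2.1 && eqF x.2.2.2.2.2 y.2.2.2.2.2))))

lemma eqV_iff (x y : V6) : eqV x y = true ↔ x = y := by
  obtain ⟨a, b, c, d, e, f⟩ := x
  obtain ⟨a', b', c', d', e', f'⟩ := y
  simp [eqV, eqF_iff]

/-- check of one generator -/
def chkG (k : Fin 9) : Bool :=
  allV fun x => !(eqF (dot x x) 1) || Nat.beq (idx (app (mat k) x)) ((permTab k).getD (idx x) 0)

set_option maxRecDepth 100000 in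
lemma chkG_all : ∀ k : Fin 9, chkG k = true := by decide +kernel

lemma idx_gen (k : Fin 9) (x : V6) (hx : dot x x = 1) :
    idx (gen k x) = (permTab k).getD (idx x) 0 := by
  have h := allV_spec (chkG_all k) x
  rw [Bool.or_eq_true] at h
  rcases h with h | h
  · rw [(eqF_iff _ _).2 hx] at h
    simp at h
  · exact Nat.eq_of_beq_eq_true h

set_option maxRecDepth 100000 in
lemma pt_perm : ∀ k : Fin 9, ∀ i : Fin 21, ∃ l : F4, l ≠ 0 ∧
    pt ((permTab k).getD i 0) = l • (smat k).mulVec (pt i) := by decide +kernel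

set_option maxRecDepth 100000 in
lemma det_smat : ∀ k : Fin 9, (smat k).det = 1 := by decide +kernel

set_option maxRecDepth 100000 in
lemma pt_inj : ∀ i j : Fin 21, ∀ l : F4, l ≠ 0 → pt i = l • pt j → i = j := by decide +kernel

/-- the twelve signed basis vectors -/
def S12 : List V6 :=
  [(1, 0, 0, 0, 0, 0), (0, 1, 0, 0, 0, 0), (0, 0, 1, 0, 0, 0), (0, 0, 0, 1, 0, 0),
   (0, 0, 0, 0, 1, 0), (0, 0, 0, 0, 0, 1),
   (.t, 0, 0, 0, 0, 0), (0, .t, 0, 0, 0, 0), (0, 0, .t, 0, 0, 0), (0, 0, 0, .t, 0, 0),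
   (0, 0, 0, 0, .t, 0), (0, 0, 0, 0, 0, .t)]

/-- membership test -/
def mem12 (x : V6) : Bool := S12.any (eqV x)

lemma mem12_iff (x : V6) : mem12 x = true ↔ x ∈ S12 := by
  simp [mem12, eqV_iff]

/-- frame numbers of norm-one vectors -/
def chkI : Bool :=
  allV fun x => !(eqF (dot x x) 1) || (Nat.ble (idx x) 20 && (!(Nat.beq (idx x) 0) || mem12 x))

set_option maxRecDepth 100000 in
lemma chkI_true : chkI = true := by decide +kernel

lemma idx_lt (x : V6) (hx : dot x x = 1) : idx x < 21 := by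
  have h := allV_spec chkI_true x
  rw [Bool.or_eq_true, Bool.and_eq_true] at h
  rcases h with h | h
  · rw [(eqF_iff _ _).2 hx] at h
    simp at h
  · have := Nat.le_of_ble_eq_true h.1
    omega

lemma mem_of_idx (x : V6) (hx : dot x x = 1) (h0 : idx x = 0) : x ∈ S12 := by
  have h := allV_spec chkI_true x
  rw [Bool.or_eq_true, Bool.and_eq_true] at h
  rcases h with h | h
  · rw [(eqF_iff _ _).2 hx] at h
    simp at h
  · have h2 := h.2
    rw [Bool.or_eq_true] at h2
    rcases h2 with h2 | h2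
    · rw [h0] at h2
      simp at h2
    · exact (mem12_iff x).1 h2

/-- orthogonality test -/
def orth (x y : V6) : Bool := eqF (dot x y) 0

/-- the frame number of a sum of four vectors -/
def ix (a b c d : V6) : ℕ := idx (a + (b + (c + d)))

/-- test for four vectors -/
def tA (a b c d : V6) : Bool :=
  Nat.beq (ix a b c d) (ix (bas 0) (bas 1) (bas 2) (bas 3)) &&
  (Nat.beq (ix a b c (-d)) (ix (bas 0) (bas 1) (bas 2) (-bas 3)) &&
  Nat.beq (ix a b (-c) d) (ix (bas 0) (bas 1) (-bas 2) (bas 3)))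

/-- tests for the fifth vector -/
def tB (a b c d e : V6) : Bool :=
  Nat.beq (ix a b c e) (ix (bas 0) (bas 1) (bas 2) (bas 4)) &&
  (Nat.beq (ix a b (-c) e) (ix (bas 0) (bas 1) (-bas 2) (bas 4)) &&
  Nat.beq (ix a c d e) (ix (bas 0) (bas 2) (bas 3) (bas 4)))

/-- tests for the sixth vector -/
def tC (a b c f : V6) : Bool :=
  Nat.beq (ix a b c f) (ix (bas 0) (bas 1) (bas 2) (bas 5))

/-- conclusion -/
def fin6 (a b c d e f : V6) : Bool :=
  (eqV a (bas 0) && (eqV b (bas 1) && (eqV c (bas 2) && (eqV d (bas 3) && (eqV e (bas 4) &&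
    eqV f (bas 5)))))) ||
  (eqV a (-bas 0) && (eqV b (-bas 1) && (eqV c (-bas 2) && (eqV d (-bas 3) && (eqV e (-bas 4) &&
    eqV f (-bas 5))))))

/-- the whole search -/
def search : Bool :=
  S12.all fun a => S12.all fun b => !(orth a b) || S12.all fun c =>
    !(orth a c && orth b c) || S12.all fun d => !(orth a d && (orth b d && orth c d)) ||
    (!(tA a b c d) || S12.all fun e => !(orth a e && (orth b e && (orth c e && orth d e))) ||
    (!(tB a b c d e) || S12.all fun f =>
      !(orth a f && (orth b f && (orth c f && (orth d f && orth e f)))) ||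
      (!(tC a b c f) || fin6 a b c d e f)))

set_option maxRecDepth 100000 in
lemma search_true : search = true := by decide +kernel

lemma all12 {p : V6 → Bool} (h : S12.all p = true) {x : V6} (hx : x ∈ S12) : p x = true :=
  List.all_eq_true.1 h x hx

lemma or_of {a b : Bool} (h : (!a || b) = true) (ha : a = true) : b = true := by
  subst ha
  simpa using h

lemma orth_of {x y : V6} (h : dot x y = 0) : orth x y = true := (eqF_iff _ _).2 h

lemma fin_of {a b c d e f : V6} (ha : a ∈ S12) (hb : b ∈ S12) (hc : c ∈ S12) (hd : d ∈ S12)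
    (he : e ∈ S12) (hf : f ∈ S12) (hab : dot a b = 0) (hac : dot a c = 0) (had : dot a d = 0)
    (hae : dot a e = 0) (haf : dot a f = 0) (hbc : dot b c = 0) (hbd : dot b d = 0)
    (hbe : dot b e = 0) (hbf : dot b f = 0) (hcd : dot c d = 0) (hce : dot c e = 0)
    (hcf : dot c f = 0) (hde : dot d e = 0) (hdf : dot d f = 0) (hef : dot e f = 0)
    (hA : tA a b c d = true) (hB : tB a b c d e = true) (hC : tC a b c f = true) :
    fin6 a b c d e f = true := by
  have h1 := or_of (all12 (all12 search_true ha) hb) (orth_of hab)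
  have h2 := or_of (all12 h1 hc) (by rw [orth_of hac, orth_of hbc]; rfl)
  have h3 := or_of (all12 h2 hd) (by rw [orth_of had, orth_of hbd, orth_of hcd]; rfl)
  have h4 := or_of h3 hA
  have h5 := or_of (all12 h4 he) (by
    rw [orth_of hae, orth_of hbe, orth_of hce, orth_of hde]; rfl)
  have h6 := or_of h5 hB
  have h7 := or_of (all12 h6 hf) (by
    rw [orth_of haf, orth_of hbf, orth_of hcf, orth_of hdf, orth_of hef]; rfl)
  exact or_of h7 hC

end Pool.Agent.Y903.LT34
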