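import Pool.Agent.Y903.LT34.Rel

/-!
# The kernel of the relation
-/

namespace Pool.Agent.Y903.LT34

open Pool.Agent.Y60 Matrix
open scoped MatrixGroups

lemma exists_pt (i : ℕ) (x : V6) (hx : dot x x = 1) (h : idx x = i) {A : MM} (hA : Cr A 1) :
    ∃ l : F4, l ≠ 0 ∧ pt i = l • A.mulVec (pt i) := by
  obtain ⟨l, hl, e⟩ := hA x hx
  refine ⟨l, hl, ?_⟩
  have : lab x = pt i := by rw [lab, h]
  rw [Equiv.Perm.one_apply, this] at e
  exact e

set_option maxRecDepth 100000 in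
lemma x0 : dot (bas 5) (bas 5) = 1 ∧ idx (bas 5) = 0 := by decide +kernel

set_option maxRecDepth 100000 in
lemma x1 : dot ((0, 0, 1, 1, 1, 1) : V6) (0, 0, 1, 1, 1, 1) = 1 ∧
    idx (0, 0, 1, 1, 1, 1) = 1 := by decide +kernel

set_option maxRecDepth 100000 in
lemma x5 : dot ((0, 1, 0, 1, 1, 1) : V6) (0, 1, 0, 1, 1, 1) = 1 ∧
    idx (0, 1, 0, 1, 1, 1) = 5 := by decide +kernel

set_option maxRecDepth 100000 in
lemma x9 : dot ((0, 1, 1, 0, 1, 1) : V6) (0, 1, 1, 0, 1, 1) = 1 ∧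
    idx (0, 1, 1, 0, 1, 1) = 9 := by decide +kernel

lemma scalar_of_one {A : MM} (hA : Cr A 1) : ∃ r : F4, r ≠ 0 ∧ A = Matrix.scalar (Fin 3) r := by
  obtain ⟨l0, h0, e0⟩ := exists_pt 0 _ x0.1 x0.2 hA
  obtain ⟨l1, h1, e1⟩ := exists_pt 1 _ x1.1 x1.2 hA
  obtain ⟨l5, h5, e5⟩ := exists_pt 5 _ x5.1 x5.2 hA
  obtain ⟨l9, h9, e9⟩ := exists_pt 9 _ x9.1 x9.2 hA
  have a00 := congrFun e0 0
  have a10 := congrFun e0 1
  have a20 := congrFun e0 2
  have a01 := congrFun e1 0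
  have a11 := congrFun e1 1
  have a21 := congrFun e1 2
  have a02 := congrFun e5 0
  have a12 := congrFun e5 1
  have a22 := congrFun e5 2
  have b0 := congrFun e9 0
  have b1 := congrFun e9 1
  have b2 := congrFun e9 2
  simp [pt, Matrix.mulVec, dotProduct, Fin.sum_univ_three, h0, h1, h5] at a00 a10 a20 a01 a11 a21 a02 a12 a22 b0 b1 b2
  rw [a01, a02, add_zero, add_zero] at b0
  rw [a10, a12, zero_add, add_zero] at b1
  rw [a20, a21, zero_add, zero_add] at b2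
  refine ⟨A 0 0, ?_, ?_⟩
  · intro h
    rw [h] at b0
    simp at b0
  · have c1 : A 1 1 = A 0 0 := mul_left_cancel₀ h9 (b1.symm.trans b0)
    have c2 : A 2 2 = A 0 0 := mul_left_cancel₀ h9 (b2.symm.trans b0)
    ext i j
    fin_cases i <;> fin_cases j <;> simp [a10, a20, a01, a21, a02, a12, c1, c2]

lemma idx_of_scalar {r : F4} (hr : r ≠ 0) (g : GG) (h : Cr (Matrix.scalar (Fin 3) r) g.1) (x : V6)
    (hx : dot x x = 1) : idx (g.1 x) = idx x := by
  obtain ⟨l, hl, e⟩ := h x hx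
  have hx' : dot (g.1 x) (g.1 x) = 1 := by rw [GG_dot]; exact hx
  have e2 : pt (idx (g.1 x)) = (l * r) • pt (idx x) := by
    have : (Matrix.scalar (Fin 3) r).mulVec (lab x) = r • lab x := by
      ext i
      simp [Matrix.mulVec_diagonal]
    rw [this, smul_smul] at e
    exact e
  have := pt_inj ⟨idx (g.1 x), idx_lt _ hx'⟩ ⟨idx x, idx_lt _ hx⟩ (l * r) (mul_ne_zero hl hr) e2
  exact congrArg Fin.val this

lemma ker_eq {r : F4} (hr : r ≠ 0) (g : GG) (h : Cr (Matrix.scalar (Fin 3) r) g.1) :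
    g = 1 ∨ g = ge 4 := by
  have hi := idx_of_scalar hr g h
  have hm : ∀ i, g.1 (bas i) ∈ S12 := by
    intro i
    have h1 : dot (bas i) (bas i) = 1 ∧ idx (bas i) = 0 := by
      revert i
      decide +kernel
    refine mem_of_idx _ (by rw [GG_dot]; exact h1.1) ?_
    rw [hi _ h1.1]
    exact h1.2
  have ho : ∀ i j, i ≠ j → dot (g.1 (bas i)) (g.1 (bas j)) = 0 := by
    intro i j hij
    rw [GG_dot]
    revert i j
    decide +kernel
  have hs : ∀ a b c d, dot (a + (b + (c + d))) (a + (b + (c + d))) = 1 →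
      ix (g.1 a) (g.1 b) (g.1 c) (g.1 d) = ix a b c d := by
    intro a b c d hd
    rw [ix, ← GG_add, ← GG_add, ← GG_add, hi _ hd]
    rfl
  have tAh : tA (g.1 (bas 0)) (g.1 (bas 1)) (g.1 (bas 2)) (g.1 (bas 3)) = true := by
    rw [tA, ← GG_neg, ← GG_neg, hs _ _ _ _ (by decide +kernel), hs _ _ _ _ (by decide +kernel),
      hs _ _ _ _ (by decide +kernel)]
    simp
  have tBh : tB (g.1 (bas 0)) (g.1 (bas 1)) (g.1 (bas 2)) (g.1 (bas 3)) (g.1 (bas 4)) = true := by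
    rw [tB, ← GG_neg, hs _ _ _ _ (by decide +kernel), hs _ _ _ _ (by decide +kernel),
      hs _ _ _ _ (by decide +kernel)]
    simp
  have tCh : tC (g.1 (bas 0)) (g.1 (bas 1)) (g.1 (bas 2)) (g.1 (bas 5)) = true := by
    rw [tC, hs _ _ _ _ (by decide +kernel)]
    simp
  have hf := fin_of (hm 0) (hm 1) (hm 2) (hm 3) (hm 4) (hm 5) (ho 0 1 (by decide))
    (ho 0 2 (by decide)) (ho 0 3 (by decide)) (ho 0 4 (by decide)) (ho 0 5 (by decide))
    (ho 1 2 (by decide)) (ho 1 3 (by decide)) (ho 1 4 (by decide)) (ho 1 5 (by decide))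
    (ho 2 3 (by decide)) (ho 2 4 (by decide)) (ho 2 5 (by decide)) (ho 3 4 (by decide))
    (ho 3 5 (by decide)) (ho 4 5 (by decide)) tAh tBh tCh
  simp only [fin6, Bool.or_eq_true, Bool.and_eq_true, eqV_iff] at hf
  rcases hf with hf | hf
  · left
    apply Subtype.ext
    apply Equiv.ext
    intro x
    refine hom_ext' ⟨⟨g.1, GG_zero g⟩, GG_add g⟩ (AddMonoidHom.id V6) ?_ x
    intro i
    fin_cases i
    · exact hf.1
    · exact hf.2.1
    · exact hf.2.2.1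
    · exact hf.2.2.2.1
    · exact hf.2.2.2.2.1
    · exact hf.2.2.2.2.2
  · right
    apply Subtype.ext
    apply Equiv.ext
    intro x
    refine hom_ext' ⟨⟨g.1, GG_zero g⟩, GG_add g⟩ ⟨⟨(ge 4).1, GG_zero _⟩, GG_add _⟩ ?_ x
    have key : ∀ i, (ge 4).1 (bas i) = - bas i := by decide +kernel
    intro i
    refine Eq.trans ?_ (key i).symm
    fin_cases i
    · exact hf.1
    · exact hf.2.1
    · exact hf.2.2.1
    · exact hf.2.2.2.1
    · exact hf.2.2.2.2.1
    · exact hf.2.2.2.2.2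

end Pool.Agent.Y903.LT34
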