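import Pool.Agent.Y903.LT34.Chk
import Pool.Agent.H463R3.PSLn

/-!
# The relation between `GG` and `SL(3, F4)`
-/

namespace Pool.Agent.Y903.LT34

open Pool.Agent.Y60 Matrix
open scoped MatrixGroups

/-- `3 x 3` matrices -/
abbrev MM := Matrix (Fin 3) (Fin 3) F4

/-- `g` acts on the frames as `A` does on the points -/
def Cr (A : MM) (g : Equiv.Perm V6) : Prop :=
  ∀ x, dot x x = 1 → ∃ l : F4, l ≠ 0 ∧ lab (g x) = l • A.mulVec (lab x)

lemma Cr_gen (k : Fin 9) : Cr (smat k) (gen k) := by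
  intro x hx
  obtain ⟨l, hl, h⟩ := pt_perm k ⟨idx x, idx_lt x hx⟩
  exact ⟨l, hl, by rw [lab, idx_gen k x hx]; exact h⟩

lemma Cr_one : Cr 1 1 := by
  intro x _
  exact ⟨1, one_ne_zero, by rw [Matrix.one_mulVec, one_smul]; rfl⟩

lemma Cr_mul {A B : MM} {g h : Equiv.Perm V6} (hh : h ∈ GG) (hA : Cr A g) (hB : Cr B h) :
    Cr (A * B) (g * h) := by
  intro x hx
  obtain ⟨m, hm, e1⟩ := hB x hx
  obtain ⟨l, hl, e2⟩ := hA (h x) (by rw [GG_dot ⟨h, hh⟩]; exact hx)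
  refine ⟨l * m, mul_ne_zero hl hm, ?_⟩
  rw [Equiv.Perm.mul_apply, e2, e1, Matrix.mulVec_smul, smul_smul, Matrix.mulVec_mulVec]

lemma Cr_inv {s : SL(3, F4)} {g : Equiv.Perm V6} (hg : g ∈ GG) (h : Cr s.1 g) :
    Cr (s⁻¹ : SL(3, F4)).1 g⁻¹ := by
  intro x hx
  obtain ⟨l, hl, e⟩ := h (g⁻¹ x) (by
    rw [GG_dot ⟨g⁻¹, inv_mem hg⟩]; exact hx)
  rw [perm_apply_inv] at e
  refine ⟨l⁻¹, inv_ne_zero hl, ?_⟩
  have key : (s⁻¹ : SL(3, F4)).1 * s.1 = 1 := congrArg Subtype.val (inv_mul_cancel s)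
  rw [e, Matrix.mulVec_smul, smul_smul, inv_mul_cancel₀ hl, one_smul, Matrix.mulVec_mulVec, key,
    Matrix.one_mulVec]

/-- every element of `GG` has a partner -/
lemma exists_s (g : GG) : ∃ s : SL(3, F4), Cr s.1 g.1 := by
  have h : g.1 ∈ GG ∧ ∃ s : SL(3, F4), Cr s.1 g.1 := by
    refine GG_ind (P := fun g => g ∈ GG ∧ ∃ s : SL(3, F4), Cr s.1 g) ?_ ?_ ?_ ?_ g
    · intro k
      exact ⟨(ge k).2, ⟨smat k, det_smat k⟩, Cr_gen k⟩
    · exact ⟨one_mem _, 1, Cr_one⟩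
    · rintro a b ⟨ha, s, hs⟩ ⟨hb, t, ht⟩
      exact ⟨mul_mem ha hb, s * t, Cr_mul hb hs ht⟩
    · rintro a ⟨ha, s, hs⟩
      exact ⟨inv_mem ha, s⁻¹, Cr_inv ha hs⟩
  exact h.2

/-- matrices with a partner -/
def Q (A : MM) : Prop := ∃ g : GG, Cr A g.1

lemma Q_mul {A B : MM} (hA : Q A) (hB : Q B) : Q (A * B) := by
  obtain ⟨g, hg⟩ := hA
  obtain ⟨h, hh⟩ := hB
  exact ⟨g * h, Cr_mul h.2 hg hh⟩

lemma Q_one : Q 1 := ⟨1, Cr_one⟩

lemma Q_smat (k : Fin 9) : Q (smat k) := ⟨ge k, Cr_gen k⟩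

lemma Q_prod (l : List (Fin 9)) : Q ((l.map smat).prod) := by
  induction l with
  | nil => exact Q_one
  | cons a l ih =>
    rw [List.map_cons, List.prod_cons]
    exact Q_mul (Q_smat a) ih

/-- permutation matrix -/
def Mp (i j : Fin 3) : MM := fun r c =>
  if (c = 0 ∧ r = i) ∨ (c = 1 ∧ r = j) ∨ (c = 2 ∧ r ≠ i ∧ r ≠ j) then 1 else 0

/-- words for the permutation matrices -/
def wd : Fin 3 → Fin 3 → List (Fin 9)
  | 0, 1 => []
  | 1, 0 => [6]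
  | 1, 2 => [7]
  | 2, 0 => [7, 7]
  | 2, 1 => [7, 6]
  | _, _ => [6, 7]

/-- words for the transposed matrices -/
def wd' : Fin 3 → Fin 3 → List (Fin 9)
  | 0, 1 => []
  | 1, 0 => [6]
  | 1, 2 => [7, 7]
  | 2, 0 => [7]
  | 2, 1 => [7, 6]
  | _, _ => [6, 7]

/-- words for `t_01(c)` -/
def wt : F4 → List (Fin 9)
  | .z => []
  | .o => [5]
  | .w => [8, 8, 5, 8]
  | .v => [8, 5, 8, 8]

set_option maxRecDepth 100000 in
lemma wd_eq : ∀ i j : Fin 3, i ≠ j → ((wd i j).map smat).prod = Mp i j := by decide +kernel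

set_option maxRecDepth 100000 in
lemma wd'_eq : ∀ i j : Fin 3, i ≠ j → ((wd' i j).map smat).prod = (Mp i j)ᵀ := by decide +kernel

set_option maxRecDepth 100000 in
lemma wt_eq : ∀ c : F4, ((wt c).map smat).prod = Matrix.transvection 0 1 c := by decide +kernel

set_option maxRecDepth 100000 in
lemma tr_eq : ∀ i j : Fin 3, i ≠ j → ∀ c : F4, Matrix.transvection i j c =
    Mp i j * (Matrix.transvection 0 1 c * (Mp i j)ᵀ) := by decide +kernel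

lemma Q_tr (i j : Fin 3) (h : i ≠ j) (c : F4) : Q (Matrix.transvection i j c) := by
  have h1 : Q (Mp i j) := wd_eq i j h ▸ Q_prod (wd i j)
  have h2 : Q (Mp i j)ᵀ := wd'_eq i j h ▸ Q_prod (wd' i j)
  have h3 : Q (Matrix.transvection 0 1 c) := wt_eq c ▸ Q_prod (wt c)
  rw [tr_eq i j h c]
  exact Q_mul h1 (Q_mul h3 h2)

lemma Q_SL (s : SL(3, F4)) : Q s.1 := by
  refine Pool.Agent.H463R3.PSLn.transvection_induction (P := fun s : SL(3, F4) => Q s.1) ?_ ?_ s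
  · intro i j h c
    exact Q_tr i j h c
  · intro A B hA hB
    exact Q_mul hA hB

end Pool.Agent.Y903.LT34
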